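import Pool.Agent.X253.QT.Main
import Pool.Agent.Y699.R10
import Pool.Agent.Y699.Cls

/-!
# The Tate-Shafarevich groups over the fields `ℚ(i)(⁴√l, √q)`, for a positive proportion of the elliptic
# curves over `ℚ(i)` with `j`-invariant `1728`

Every elliptic curve over `ℚ(i)` with `j = 1728` is isomorphic to `E_D : y² = x³ + D x` for exactly one
Gaussian integer `D` that no fourth power of a prime divides.  We prove that for a positive
proportion of all these `D`, ordered by norm, there is an infinite set `Q` of primes `l` such that for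
every finite subset `S₄` of `Q` and every finite set `S₂` of primes `q` (not dividing `2D`, of norm `1`
modulo `8`, modulo which `D` is not a square and the `l` in `S₄` are squares) the following holds.

(1) For all the quartic twists `E'` of `E_D` by the products `∏ l ^ m_l ∏ q ^ (2 n_q)`, the 2-primary part
of `Ш(E'/ℚ(i))` is trivial.

(2) For `F = ℚ(i)(⁴√l, √q : l ∈ S₄, q ∈ S₂)`, an abelian extension of `ℚ(i)` with Galois group
`(ℤ/4)^a × (ℤ/2)^b`, the 2-primary part of `Ш(E_D/F)` is finite and killed by the degree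
`[F : ℚ(i)] = 4^a 2^b`; moreover `E_D(F)` is finite, `L(E_D/F, s)` has an entire continuation, and
`L(E_D/F, 1) ≠ 0`.

The part on `E_D(F)` and `L(E_D/F, s)` is the theorem `MP_cd906c_nt.QuarticTowers` of the library.  The new
parts are the descent by `1 + i` for the coefficients `D ∏ l ^ m_l ∏ q ^ (2 n_q)` with arbitrary
exponents, at the level of `Ш` (`X253/QT/Loc`, `X253/QT/Sha`), and the corestriction to all quartic
twists (`X253/QT/Cor4`, from the corestriction of `Y715/CS` and `Y682/YS`): for an element `x` of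
`Ш(E_D/F)[2^∞]` the sum of the restrictions of the twisted corestrictions of `x` is `[F : ℚ(i)] x`.
-/

set_option autoImplicit false

namespace Pool.Agent.Results.MP_78d38b_nt.QuarticTowersSha

open Filter Topology NumberField IsDedekindDomain
open Pool.Agent.TH841.NF.D (Sha)

/-- `d` is primary: `d ≡ 1` modulo `2 + 2i`. -/
def Primary (d : GaussianInt) : Prop := (⟨2, 2⟩ : GaussianInt) ∣ d - 1

/-- The curve `y² = x³ + a x`. -/
def curve {L : Type} [Field L] (a : L) : WeierstrassCurve L := ⟨0, 0, 0, a, 0⟩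

/-- The 2-primary part of `Ш(W/K)` is trivial. -/
def TwoTrivial {K : Type} [Field K] [NumberField K] (W : WeierstrassCurve K) : Prop :=
  ∀ (k : ℕ) (x : Sha W), 2 ^ k • x = 0 → x = 0

/-- The 2-primary part of `Ш(W/K)` is finite and killed by `N`. -/
def TwoFinite {K : Type} [Field K] [NumberField K] (W : WeierstrassCurve K) (N : ℕ) : Prop :=
  Finite (AddCommGroup.primaryComponent (Sha W) 2) ∧
  ∀ (k : ℕ) (x : Sha W), 2 ^ k • x = 0 → N • x = 0

/-- The parameter `D ∏ l ^ m_l ∏ q ^ (2 n_q)` of a quartic twist of `E_D`. -/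
def param (D : GaussianInt) (S₄ S₂ : Finset GaussianInt) (m n : GaussianInt → ℕ) : GaussianInt :=
  D * ((∏ l ∈ S₄, l ^ m l) * ∏ q ∈ S₂, q ^ (2 * n q))

/-- The curve `y² = x³ + D x` over the field `K` with ring of integers `ℤ[i]`. -/
noncomputable def curveOver {K : Type} [Field K] [NumberField K] (e : GaussianInt ≃+* 𝓞 K)
    (D : GaussianInt) : WeierstrassCurve K :=
  curve (algebraMap (𝓞 K) K (e D))

/-- The 2-primary parts of the groups `Ш(E'/K)` are trivial for `K = ℚ(i)` (every number field `K` with an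
isomorphism `e` of `ℤ[i]` with its ring of integers) and the quartic twists
`E' : y² = x³ + D ∏ l ^ m_l ∏ q ^ (2 n_q) x` of `E_D`, where `m_l < 4` and `n_q < 2`. -/
def TwistsTrivial (D : GaussianInt) (S₄ S₂ : Finset GaussianInt) : Prop :=
  ∀ (K : Type) [Field K] [NumberField K] (e : GaussianInt ≃+* 𝓞 K) (m n : GaussianInt → ℕ),
    (∀ l ∈ S₄, m l < 4) → (∀ q ∈ S₂, n q < 2) → TwoTrivial (curveOver e (param D S₄ S₂ m n))

variable {F : Type} [Field F] [NumberField F]

/-- `F = ℚ(i)(⁴√l, √q : l ∈ S₄, q ∈ S₂)`, where `ℤ[i]` is embedded in `F` by `ι`. -/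
def Generated (ι : GaussianInt →+* 𝓞 F) (S₄ S₂ : Finset GaussianInt) : Prop :=
  ∃ r : GaussianInt → 𝓞 F, (∀ l ∈ S₄, r l ^ 4 = ι l) ∧ (∀ q ∈ S₂, r q ^ 2 = ι q) ∧
    ∀ L : Subfield F, (∀ g : GaussianInt, (ι g : F) ∈ L) → (∀ l ∈ S₄, (r l : F) ∈ L) →
      (∀ q ∈ S₂, (r q : F) ∈ L) → L = ⊤

/-- `q_v`, the number of elements of the residue field `k_v`. -/
noncomputable def q (v : HeightOneSpectrum (𝓞 F)) : ℕ := Ideal.absNorm v.asIdeal

/-- `#E(k_v)` with the point at infinity, for `E : y² = x³ + a x`. -/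
noncomputable def numPoints (a : 𝓞 F) (v : HeightOneSpectrum (𝓞 F)) : ℕ :=
  Nat.card {P : (𝓞 F ⧸ v.asIdeal) × (𝓞 F ⧸ v.asIdeal) // P.2 ^ 2 =
    P.1 ^ 3 + Ideal.Quotient.mk v.asIdeal a * P.1} + 1

/-- The Euler factor `(1 - a_v q_v^{-s} + q_v^{1-2s})⁻¹` of `y² = x³ + a x`,
`a_v = q_v + 1 - #E(k_v)`. -/
noncomputable def factor (a : 𝓞 F) (s : ℂ) (v : HeightOneSpectrum (𝓞 F)) : ℂ :=
  (1 - ((q v : ℂ) + 1 - numPoints a v) * (q v : ℂ) ^ (-s) + (q v : ℂ) ^ (1 - 2 * s))⁻¹

/-- The Euler product of `y² = x³ + a x` over the places of `F` which do not divide `N` has an entire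
continuation `L` with `L(1) ≠ 0`. -/
def CentralValueNonzero (N a : 𝓞 F) : Prop :=
  ∃ L : ℂ → ℂ, Differentiable ℂ L ∧
    (∀ z : ℂ, 3 / 2 < z.re → HasProd (fun v : {v : HeightOneSpectrum (𝓞 F) //
      N ∉ v.asIdeal} => factor a z v.1) (L z)) ∧ L 1 ≠ 0

/-- For `E : y² = x³ + D x` over `F` the 2-primary part of the Tate-Shafarevich group is finite and killed
by `N`, the group `E(F)` is finite, and the Euler product over the places of `F` which do not divide
`M` has an entire continuation `L` with `L(1) ≠ 0`. -/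
def ShaFinite (ι : GaussianInt →+* 𝓞 F) (M D : GaussianInt) (N : ℕ) : Prop :=
  TwoFinite (curve ((ι D : 𝓞 F) : F)) N ∧
  Finite (curve ((ι D : 𝓞 F) : F)).toAffine.Point ∧ CentralValueNonzero (ι M) (ι D)

/-- `D` is not zero and no fourth power of a prime divides it. -/
def FourthPowerFree (D : GaussianInt) : Prop := D ≠ 0 ∧ ∀ π : GaussianInt, Prime π → ¬ π ^ 4 ∣ D

/-- All the parameters `D` of norm at most `X`; each of them is one elliptic curve over `ℚ(i)` with
`j = 1728`, up to isomorphism. -/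
def Family (X : ℕ) : Set GaussianInt := {D | FourthPowerFree D ∧ D.norm ≤ X}

/-- The primes allowed for the square roots: `q` is a primary prime that does not divide `D`, of norm
`1` modulo `8`, `D` is not a square modulo `q`, and the elements of `S₄` are prime to `q` and squares
modulo `q`. -/
def Allowed (D : GaussianInt) (S₄ : Finset GaussianInt) : Set GaussianInt :=
  {q | Prime q ∧ Primary q ∧ ¬ q ∣ D ∧ q.norm % 8 = 1 ∧ (¬ ∃ x : GaussianInt, q ∣ D - x ^ 2) ∧
    ∀ l ∈ S₄, ¬ q ∣ l ∧ ∃ x : GaussianInt, q ∣ l - x ^ 2}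

/-- Those `D` for which there is an infinite set `Q` of primary primes not dividing `D` such that for
every finite subset `S₄` of `Q` the set `Allowed D S₄` is infinite, and for every finite subset `S₂` of
`Allowed D S₄` the quartic twists of `E_D` have a trivial 2-primary part of `Ш` over `ℚ(i)`, and the field
`F = ℚ(i)(⁴√l, √q : l ∈ S₄, q ∈ S₂)` has degree `2 · 4 ^ #S₄ · 2 ^ #S₂`, the 2-primary part of
`Ш(E_D/F)` is finite and killed by `4 ^ #S₄ · 2 ^ #S₂`, and `E_D(F)` is finite and `L(E_D/F, 1) ≠ 0`. -/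
def Tower (X : ℕ) : Set GaussianInt := {D | D ∈ Family X ∧
  ∃ Q : Set GaussianInt, Q.Infinite ∧ (∀ l ∈ Q, Prime l ∧ Primary l ∧ ¬ l ∣ D) ∧
    ∀ S₄ : Finset GaussianInt, (∀ l ∈ S₄, l ∈ Q) → (Allowed D S₄).Infinite ∧
      ∀ S₂ : Finset GaussianInt, (∀ q ∈ S₂, q ∈ Allowed D S₄) →
        TwistsTrivial D S₄ S₂ ∧
        ∀ (F : Type) [Field F] [NumberField F] (ι : GaussianInt →+* 𝓞 F), Generated ι S₄ S₂ →
          Module.finrank ℚ F = 2 * (4 ^ S₄.card * 2 ^ S₂.card) ∧
          ShaFinite ι (2 * D * ((∏ l ∈ S₄, l) * ∏ q ∈ S₂, q)) D (4 ^ S₄.card * 2 ^ S₂.card)}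

theorem primary_iff (d : GaussianInt) :
    Primary d ↔ Pool.Agent.H304R2.EC.A1.prim d := (Pool.Agent.W164.RC.prim_iff_dvd d).symm

theorem pp_iff (d : GaussianInt) : Prime d ∧ Primary d ↔ Pool.Agent.Y699.PP d :=
  ⟨fun h => ⟨h.1, (primary_iff d).1 h.2⟩, fun h => ⟨h.pr, (primary_iff d).2 h.prm⟩⟩

theorem allowed_eq (D : GaussianInt) (S₄ : Finset GaussianInt) :
    Allowed D S₄ = {q | Pool.Agent.Y715.QT.Alw D S₄ q} := by
  ext q
  constructor
  · rintro ⟨h1, h2, h3, h4, h5, h6⟩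
    exact ⟨(pp_iff q).1 ⟨h1, h2⟩, h3, h4, h5, h6⟩
  · intro h
    have h1 := (pp_iff q).2 h.pp
    exact ⟨h1.1, h1.2, h.nd, h.nm, h.ns, h.cr⟩

theorem factor_eq (a : 𝓞 F) (s : ℂ) (v : HeightOneSpectrum (𝓞 F)) :
    Pool.Agent.Y715.QT.ef a s v = factor a s v := by
  unfold Pool.Agent.Y715.QT.ef factor numPoints q Pool.Agent.Y699.cnt4
  push_cast
  rw [add_sub_add_right_eq_sub]

theorem family_finite (X : ℕ) : (Family X).Finite := by
  refine (Pool.Agent.Y699.fin_norm_le X).subset ?_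
  rintro D ⟨-, h⟩
  have h0 := GaussianInt.norm_nonneg D
  show D.norm.natAbs ≤ X
  omega

/-- There are at most `9 X` parameters of norm at most `X`. -/
theorem family_le {X : ℕ} (hX : 1 ≤ X) : (Family X).ncard ≤ 9 * X := by
  classical
  set s := Nat.sqrt X with hs
  have hs1 : 1 ≤ s := Nat.le_sqrt.2 (by omega)
  set B : Finset (ℤ × ℤ) := (Finset.Icc (-(s : ℤ)) s) ×ˢ (Finset.Icc (-(s : ℤ)) s) with hB
  have hinj : Set.InjOn (fun D : GaussianInt => (D.re, D.im)) (Family X) := by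
    intro a _ b _ hab
    simp only [Prod.mk.injEq] at hab
    exact Zsqrtd.ext hab.1 hab.2
  have hmaps : ∀ D ∈ Family X, (fun D : GaussianInt => (D.re, D.im)) D ∈ (B : Set (ℤ × ℤ)) := by
    rintro D ⟨-, h⟩
    have h1 : D.norm = D.re ^ 2 + D.im ^ 2 := by
      rw [Zsqrtd.norm_def]; ring
    have h4 : D.re.natAbs ≤ s := by
      rw [hs, Nat.le_sqrt']; zify; rw [sq_abs]; nlinarith [sq_nonneg D.im]
    have h5 : D.im.natAbs ≤ s := by
      rw [hs, Nat.le_sqrt']; zify; rw [sq_abs]; nlinarith [sq_nonneg D.re]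
    rw [hB, Finset.mem_coe, Finset.mem_product, Finset.mem_Icc, Finset.mem_Icc]
    refine ⟨⟨?_, ?_⟩, ⟨?_, ?_⟩⟩ <;> simp only <;> omega
  have h1 := Set.ncard_le_ncard_of_injOn _ hmaps hinj (Finset.finite_toSet B)
  rw [Set.ncard_coe_finset] at h1
  refine h1.trans ?_
  have h2 : (Finset.Icc (-(s : ℤ)) s).card = 2 * s + 1 := by
    rw [Int.card_Icc]; omega
  rw [hB, Finset.card_product, h2]
  have h3 : s * s ≤ X := Nat.sqrt_le X
  nlinarith

theorem good_tower {D : GaussianInt} (hg : Pool.Agent.Y699.Good4 D) :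
    ∃ Q : Set GaussianInt, Q.Infinite ∧ (∀ l ∈ Q, Prime l ∧ Primary l ∧ ¬ l ∣ D) ∧
    ∀ S₄ : Finset GaussianInt, (∀ l ∈ S₄, l ∈ Q) → (Allowed D S₄).Infinite ∧
      ∀ S₂ : Finset GaussianInt, (∀ q ∈ S₂, q ∈ Allowed D S₄) →
        TwistsTrivial D S₄ S₂ ∧
        ∀ (F : Type) [Field F] [NumberField F] (ι : GaussianInt →+* 𝓞 F), Generated ι S₄ S₂ →
          Module.finrank ℚ F = 2 * (4 ^ S₄.card * 2 ^ S₂.card) ∧
          ShaFinite ι (2 * D * ((∏ l ∈ S₄, l) * ∏ q ∈ S₂, q)) D (4 ^ S₄.card * 2 ^ S₂.card) := by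
  obtain ⟨Q, hQ1, hQ2, hQ3⟩ := Pool.Agent.X253.QT.tower hg
  refine ⟨Q, hQ1, fun l hl => ?_, fun S₄ hS₄ => ?_⟩
  · have h1 := (pp_iff l).2 (hQ2 l hl).1
    exact ⟨h1.1, h1.2, (hQ2 l hl).2⟩
  · obtain ⟨h1, h2⟩ := hQ3 S₄ hS₄
    rw [allowed_eq]
    refine ⟨h1, fun S₂ hS₂ => ?_⟩
    obtain ⟨h3, h4⟩ := h2 S₂ hS₂
    refine ⟨h3, fun F _ _ ι hF => ?_⟩
    obtain ⟨r, hr⟩ := hF
    obtain ⟨h5, h6, ⟨L, hL1, hL2, hL3⟩, h7, h8⟩ := h4 F ι r hr
    refine ⟨h5, ⟨h7, h8⟩, h6, L, hL1, fun z hz => ?_, hL2⟩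
    exact (hL3 z hz).congr_fun fun v => (factor_eq _ _ _).symm

/-- **Main theorem.**  There is `c > 0` such that for all large `X` at least the proportion `c` of all
Gaussian integers `D` of norm at most `X` that no fourth power of a prime divides, and at least `c X` of
them, have the following property for `E_D : y² = x³ + D x`.  There is an infinite set `Q` of primes
such that for every finite subset `S₄` of `Q` there are infinitely many allowed primes, and for every
finite set `S₂` of allowed primes: `Ш(E'/ℚ(i))[2^∞] = 0` for all the quartic twists `E'` of `E_D` by the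
products of powers of the `l ∈ S₄` and even powers of the `q ∈ S₂`; for
`F = ℚ(i)(⁴√l, √q : l ∈ S₄, q ∈ S₂)` the degree is `[F : ℚ] = 2 · 4 ^ #S₄ · 2 ^ #S₂`, the group
`Ш(E_D/F)[2^∞]` is finite and killed by `4 ^ #S₄ · 2 ^ #S₂`, `E_D(F)` is finite, and `L(E_D/F, s)` is entire
with `L(E_D/F, 1) ≠ 0`.  The second part says that these `D` are the isomorphism classes of the elliptic
curves over `ℚ(i)` with `j`-invariant `1728`. -/
theorem result :
    (∃ c : ℝ, 0 < c ∧ ∃ X₀ : ℕ, ∀ X : ℕ, X₀ ≤ X →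
      c * ((Family X).ncard : ℝ) ≤ ((Tower X).ncard : ℝ) ∧ c * X ≤ ((Tower X).ncard : ℝ)) ∧
    ∀ (K : Type) [Field K] [NumberField K] (e : GaussianInt ≃+* 𝓞 K) (E : WeierstrassCurve K)
      [E.IsElliptic], E.j = 1728 → ∃! D : GaussianInt, FourthPowerFree D ∧
        ∃ C : WeierstrassCurve.VariableChange K, C • E = curveOver e D := by
  constructor
  swap
  · intro K _ _ e E _ hj
    letI : Algebra GaussianInt K := ((algebraMap (𝓞 K) K).comp (e : GaussianInt →+* 𝓞 K)).toAlgebra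
    haveI : IsFractionRing GaussianInt K := IsFractionRing.of_ringEquiv_left e (fun _ => rfl)
    exact Pool.Agent.Y699.cls1728 E hj
  obtain ⟨c, hc, X₀, h⟩ := Pool.Agent.Y699.positive₄
  have key : ∀ X : ℕ, X₀ ≤ X → c * X ≤ ((Tower X).ncard : ℝ) := by
    intro X hX
    refine (h X hX).trans ?_
    have h1 : ((Pool.Agent.Y699.GB₄ X : Finset GaussianInt) : Set GaussianInt) ⊆ Tower X := by
      intro D hD
      have h2 : D ∈ Pool.Agent.Y699.SB X ∧ Pool.Agent.Y699.Good4 D := by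
        have h0 := Finset.mem_coe.1 hD
        unfold Pool.Agent.Y699.GB₄ at h0
        classical
        exact Finset.mem_filter.1 h0
      have h3 := (Pool.Agent.Y699.mem_SB).1 h2.1
      refine ⟨⟨⟨h3.2.ne, fun π hπ h5 => ?_⟩, ?_⟩, good_tower h2.2⟩
      · exact hπ.not_isUnit (h3.2.sqf π (dvd_trans ⟨π ^ 2, by ring⟩ h5))
      · have h4 : D.norm.natAbs ≤ X := h3.1
        omega
    have h5 := Set.ncard_le_ncard h1 ((family_finite X).subset fun D hD => hD.1)
    rw [Set.ncard_coe_finset] at h5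
    exact_mod_cast h5
  refine ⟨c / 9, by positivity, max X₀ 1, fun X hX => ?_⟩
  have hX0 : X₀ ≤ X := (le_max_left _ _).trans hX
  have hX1 : 1 ≤ X := (le_max_right _ _).trans hX
  have h1 := key X hX0
  have h2 : ((Family X).ncard : ℝ) ≤ 9 * X := by exact_mod_cast family_le hX1
  have h3 : (0 : ℝ) ≤ X := Nat.cast_nonneg X
  constructor
  · calc c / 9 * ((Family X).ncard : ℝ) ≤ c / 9 * (9 * X) :=
          mul_le_mul_of_nonneg_left h2 (by positivity)
      _ = c * X := by ring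
      _ ≤ _ := h1
  · calc c / 9 * (X : ℝ) ≤ c * X := by nlinarith
      _ ≤ _ := h1

end Pool.Agent.Results.MP_78d38b_nt.QuarticTowersSha
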