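import Mathlib
import Pool.Agent.Y682.StabH

/-!
# Curves semistable at two and their quadratic twists over totally real fields of odd degree, without
# a condition at two

`E : y² = x³ + a x² + 16 c x` with integers `a`, `c`, and `E_d : y² = x³ + d a x² + 16 d² c x` is the
quadratic twist of `E` by `d`, `d a = 1` modulo `4`, `c > 0`, and `d a < 0` or `a² < 64 c`. The curve
`E_d` has semistable reduction at `2`, and good reduction if `c` is odd. `E_d'` is the isogenous curve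
`y² = x³ - 2 d a x² + d² (a² - 64 c) x`.

Let `K` be a totally real number field of odd degree and odd narrow class number with only one prime
above each prime factor of `c (a² - 64 c)`. Each prime factor `p` of `d` also has only one prime above
it in `K`, or it is odd, its residue degrees in `K` are odd (as is the case if `K` is a Galois
extension of `ℚ`), and `c` and `a² - 64 c` are not squares modulo `p`. Then the 2-primary parts of
`Ш(E_d/K)` and `Ш(E_d'/K)` are isomorphic to those over `ℚ`, and the ranks are the same. The prime `2`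
may decompose in `K` in any way if `c` is odd.
-/

set_option autoImplicit false

namespace Pool.Agent.Results.MP_78d38b_nt.SplitTwoStability

open NumberField IsDedekindDomain

open Pool.Agent.Y682 (NCl)

/-- `a = 1` modulo `4`, `c > 0`, `a² ≠ 64 c`, and `a < 0` or `a² < 64 c`. -/
def Adm (a c : ℤ) : Prop := a % 4 = 1 ∧ 0 < c ∧ a ^ 2 ≠ 64 * c ∧ (a < 0 ∨ a ^ 2 < 64 * c)

/-- There is only one prime of `K` above `p`. -/
def Unsplit (K : Type) [Field K] [NumberField K] (p : ℕ) : Prop :=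
  ∀ v w : HeightOneSpectrum (𝓞 K), (p : 𝓞 K) ∈ v.asIdeal → (p : 𝓞 K) ∈ w.asIdeal → v = w

/-- The residue degrees of the primes of `K` above `p` are odd. -/
def OddResidueDegrees (K : Type) [Field K] [NumberField K] (p : ℕ) : Prop :=
  ∀ v : HeightOneSpectrum (𝓞 K), (p : 𝓞 K) ∈ v.asIdeal →
    ∃ f : ℕ, Odd f ∧ Nat.card (𝓞 K ⧸ v.asIdeal) = p ^ f

/-- For the curve `E : y² = x³ + A x² + B x`: `Ш(E/K)[2^∞] ≃ Ш(E/ℚ)[2^∞]` and
`rank E(K) = rank E(ℚ)`. -/
def Stable (K : Type) [Field K] [NumberField K] (A B : ℤ) : Prop :=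
  Nonempty
    (AddCommGroup.primaryComponent
        (Pool.Agent.TH841.NF.D.Sha (⟨0, A, 0, B, 0⟩ : WeierstrassCurve K)) 2 ≃+
      AddCommGroup.primaryComponent
        (Pool.Agent.TH841.SH.D.Sha (⟨0, A, 0, B, 0⟩ : WeierstrassCurve ℚ)) 2) ∧
  Pool.Agent.TH841.NF.D.rk (⟨0, A, 0, B, 0⟩ : WeierstrassCurve K) =
    Pool.Agent.TH841.SH.D.rk (⟨0, A, 0, B, 0⟩ : WeierstrassCurve ℚ)


/-- in a Galois extension of odd degree the residue degrees are odd -/
lemma odd_residue {K : Type} [Field K] [NumberField K] [IsGalois ℚ K]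
    (hdeg : Odd (Module.finrank ℚ K)) {p : ℕ} (hp : p.Prime) (v : HeightOneSpectrum (𝓞 K))
    (hv : (p : 𝓞 K) ∈ v.asIdeal) : ∃ f : ℕ, Odd f ∧ Nat.card (𝓞 K ⧸ v.asIdeal) = p ^ f := by
  have hp' : Prime (p : ℤ) := Nat.prime_iff_prime_int.mp hp
  have hl : v.asIdeal.LiesOver (Ideal.span {(p : ℤ)}) :=
    (Ideal.liesOver_span_iff v.isPrime.ne_top hp').mpr (by simpa using hv)
  have hP : v.asIdeal.IsPrime := v.isPrime
  have hPm : v.asIdeal.IsMaximal := v.isMaximal
  have hpr : (Ideal.span {(p : ℤ)}).IsPrime := by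
    rwa [Ideal.span_singleton_prime hp'.ne_zero]
  have hpm : (Ideal.span {(p : ℤ)}).IsMaximal :=
    hpr.isMaximal (by simpa using hp.ne_zero)
  have h1 := Ideal.absNorm_eq_pow_inertiaDeg' v.asIdeal hp
  refine ⟨(Ideal.span {(p : ℤ)}).inertiaDeg' v.asIdeal, ?_, ?_⟩
  · have h2 := Ideal.ncard_primesOver_mul_ramificationIdxIn_mul_inertiaDegIn
      (Ideal.span {(p : ℤ)}) (𝓞 K) Gal(K/ℚ)
    rw [Ideal.inertiaDegIn_eq_inertiaDeg (Ideal.span {(p : ℤ)}) v.asIdeal Gal(K/ℚ),
      IsGaloisGroup.card_eq_finrank Gal(K/ℚ) ℚ K] at h2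
    have h3 : Odd (v.asIdeal.inertiaDeg ℤ) := by
      rw [← h2] at hdeg
      exact (Nat.odd_mul.mp (Nat.odd_mul.mp hdeg).2).2
    rwa [Ideal.inertiaDeg'_eq_inertiaDeg]
  · rw [← h1]
    rw [Ideal.absNorm_apply, Submodule.cardQuot_apply]

lemma nsq_field {k : Type*} [Field k] [Finite k] {p f : ℕ} [Fact p.Prime] [CharP k p] (hp2 : p ≠ 2)
    (hf : Odd f) (hk : Nat.card k = p ^ f) {γ : ℤ} (hγ : ¬ IsSquare (γ : ZMod p)) (x : k) :
    x ^ 2 ≠ (γ : k) := by
  have hp : p.Prime := Fact.out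
  have : Fintype k := Fintype.ofFinite k
  intro hx
  have hodd : p % 2 = 1 := hp.mod_two_eq_one_iff_ne_two.mpr hp2
  have hγ0 : (γ : ZMod p) ≠ 0 := by
    intro h; apply hγ; rw [h]; exact ⟨0, by simp⟩
  have hE : (γ : ZMod p) ^ (p / 2) = -1 := by
    rcases ZMod.pow_div_two_eq_neg_one_or_one p hγ0 with h | h
    · exact absurd ((ZMod.euler_criterion p hγ0).mpr h) hγ
    · exact h
  have hE' : (γ : k) ^ (p / 2) = -1 := by
    have := congrArg (ZMod.castHom (dvd_refl p) k) hE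
    simpa using this
  have h1 : x ^ p = -x := by
    calc x ^ p = (x ^ 2) ^ (p / 2) * x := by
          rw [← pow_mul, ← pow_succ]; congr 1; omega
      _ = -x := by rw [hx, hE']; ring
  have h2 : ∀ j : ℕ, x ^ p ^ j = (-1) ^ j * x := by
    intro j
    induction j with
    | zero => simp
    | succ j ih =>
      rw [pow_succ, pow_mul, ih, mul_pow, h1, ← pow_mul, mul_comm j p, pow_mul,
        Odd.neg_one_pow (Nat.odd_iff.mpr hodd)]
      ring
  have h3 : x ^ p ^ f = x := by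
    rw [← hk, Nat.card_eq_fintype_card]; exact FiniteField.pow_card x
  rw [h2, hf.neg_one_pow] at h3
  have h4 : (2 : k) * x = 0 := by linear_combination -h3
  have h5 : (2 : k) ≠ 0 := by
    intro h
    have h6 : ((2 : ℕ) : k) = 0 := by exact_mod_cast h
    rw [CharP.cast_eq_zero_iff k p] at h6
    exact hp2 ((Nat.prime_dvd_prime_iff_eq hp Nat.prime_two).mp h6)
  have h6 : x = 0 := (mul_eq_zero.mp h4).resolve_left h5
  rw [h6] at hx
  have h7 : (γ : k) = 0 := by rw [← hx]; simp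
  apply hγ0
  have h8 : ZMod.castHom (dvd_refl p) k (γ : ZMod p) = ZMod.castHom (dvd_refl p) k 0 := by
    simpa using h7
  exact (ZMod.castHom (dvd_refl p) k).injective h8

lemma nsq_residue {K : Type} [Field K] [NumberField K] {p : ℕ}
    (hdeg : OddResidueDegrees K p) (hp : p.Prime) (hp2 : p ≠ 2) {γ : ℤ}
    (hγ : ¬ IsSquare (γ : ZMod p)) (v : HeightOneSpectrum (𝓞 K))
    (hv : (p : 𝓞 K) ∈ v.asIdeal) (x : 𝓞 K) : x ^ 2 - (γ : 𝓞 K) ∉ v.asIdeal := by
  obtain ⟨f, hf, hk⟩ := hdeg v hv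
  have : Fact p.Prime := ⟨hp⟩
  have hPm : v.asIdeal.IsMaximal := v.isMaximal
  let _ : Field (𝓞 K ⧸ v.asIdeal) := Ideal.Quotient.field _
  have hfin : Finite (𝓞 K ⧸ v.asIdeal) := Nat.finite_of_card_ne_zero (by
    rw [hk]; exact (pow_pos hp.pos f).ne')
  have hchar : CharP (𝓞 K ⧸ v.asIdeal) p := by
    rw [CharP.charP_iff_prime_eq_zero hp, ← map_natCast (Ideal.Quotient.mk v.asIdeal)]
    exact Ideal.Quotient.eq_zero_iff_mem.mpr hv
  intro h
  apply nsq_field hp2 hf hk hγ (Ideal.Quotient.mk v.asIdeal x)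
  rw [← sub_eq_zero, ← map_pow, ← map_intCast (Ideal.Quotient.mk v.asIdeal), ← map_sub]
  exact Ideal.Quotient.eq_zero_iff_mem.mpr h

/-- **Theorem.** Let `a`, `c`, `d` be integers with `d a = 1` modulo `4`, `c > 0`, `a² ≠ 64 c`, and
`d a < 0` or `a² < 64 c`. Let `K` be a totally real number field of odd degree and odd narrow class
number, with only one prime above each prime factor of `c (a² - 64 c)`. Suppose that for each prime
factor `p` of `d` there is also only one prime of `K` above `p`, or `c` and `a² - 64 c` are not squares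
modulo `p`, `p ≠ 2`, and the residue degrees of the primes of `K` above `p` are odd (which holds if
`K / ℚ` is Galois). For the curve `E_d : y² = x³ + d a x² + 16 d² c x` and for the isogenous curve
`E_d' : y² = x³ - 2 d a x² + d² (a² - 64 c) x` the 2-primary part of `Ш` and the rank are the same
over `K` and over `ℚ`. -/
theorem result (a c d : ℤ) (h : Adm (d * a) (d ^ 2 * c)) (K : Type) [Field K] [NumberField K]
    [IsTotallyReal K] (hdeg : Odd (Module.finrank ℚ K)) (hcl : Odd (Nat.card (NCl K)))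
    (hbad : ∀ p : ℕ, p.Prime → (p : ℤ) ∣ c * (a ^ 2 - 64 * c) → Unsplit K p)
    (htw : ∀ p : ℕ, p.Prime → (p : ℤ) ∣ d → Unsplit K p ∨
      (p ≠ 2 ∧ ¬ IsSquare (c : ZMod p) ∧ ¬ IsSquare ((a ^ 2 - 64 * c : ℤ) : ZMod p) ∧
        (OddResidueDegrees K p ∨ IsGalois ℚ K))) :
    Stable K (d * a) (16 * (d ^ 2 * c)) ∧
      Stable K (-2 * (d * a)) ((d * a) ^ 2 - 64 * (d ^ 2 * c)) := by
  obtain ⟨ha, hc, hD, hac⟩ := h
  have hd0 : d ≠ 0 := by
    rintro rfl
    simp at ha
  have hb : ∀ p : ℕ, p.Prime → (p : ℤ) ∣ (d ^ 2 * c) * ((d * a) ^ 2 - 64 * (d ^ 2 * c)) →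
      Pool.Agent.Y682.BadOK' K (d * a) (d ^ 2 * c) p := by
    intro p hp hpd
    have e : (d ^ 2 * c) * ((d * a) ^ 2 - 64 * (d ^ 2 * c)) =
        d ^ 4 * (c * (a ^ 2 - 64 * c)) := by ring
    rw [e] at hpd
    have hp' : Prime (p : ℤ) := Nat.prime_iff_prime_int.mp hp
    rcases hp'.dvd_or_dvd hpd with h1 | h1
    · rcases htw p hp (hp'.dvd_of_dvd_pow h1) with h2 | ⟨h2, h3, h4, h5⟩
      · exact Or.inl h2
      · have h6 : OddResidueDegrees K p := by
          rcases h5 with h5 | h5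
          · exact h5
          · exact fun v hv => odd_residue hdeg hp v hv
        exact Or.inr ⟨h2, d, a, c, hd0, rfl, rfl, fun v hv x =>
          ⟨nsq_residue h6 hp h2 h3 v hv x, nsq_residue h6 hp h2 h4 v hv x⟩⟩
    · exact Or.inl (hbad p hp h1)
  constructor
  · exact (@Pool.Agent.Y682.stabO K _ _ _ DivisionRing.toRatAlgebra inferInstance (d * a)
      (d ^ 2 * c) (d * a) (16 * (d ^ 2 * c)) ha hc hac hD (Or.inl ⟨rfl, rfl⟩) hcl hdeg hb).symm
  · exact (@Pool.Agent.Y682.stabO K _ _ _ DivisionRing.toRatAlgebra inferInstance (d * a)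
      (d ^ 2 * c) (-2 * (d * a)) ((d * a) ^ 2 - 64 * (d ^ 2 * c)) ha hc hac hD
      (Or.inr ⟨rfl, rfl⟩) hcl hdeg hb).symm

end Pool.Agent.Results.MP_78d38b_nt.SplitTwoStability
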